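import Pool.Agent.Y745.UP.Fin
import Pool.Agent.Y732.UP.SUBA
import Pool.Agent.Y568.UP.STRIP
import Pool.Agent.Y624.UP.NZM
import Pool.Agent.Y419.UP.UPB
import Pool.Agent.Y496.UP.OUT

set_option autoImplicit false

/-! UP project: assembly. -/

namespace Pool.Agent.Y745.UP

theorem a_OUT : P_OUT := Pool.Agent.Y496.UP.t_OUT

theorem a_UPB : P_UPB :=
  Pool.Agent.Y419.UP.t_UPB Pool.Agent.Y732.UP.t_SUBA (Pool.Agent.Y568.UP.t_STRIP Pool.Agent.Y732.UP.t_SUBA a_OUT)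
    Pool.Agent.Y624.UP.t_NZM

end Pool.Agent.Y745.UP
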