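import Pool.Agent.H370R2.PC1
import Pool.Agent.H370R2.EF

set_option autoImplicit false

/-!
UP project (helper745, MP_6bc78b_nt and MP_69b2e4_nt): unconditional upper bounds for the moments of `ζ'(ρ)` over the
zeros on the critical line, `0 < k < 2`, up to `(log T) ^ ε`.
-/

namespace Pool.Agent.Y745.UP

open Filter Topology MeasureTheory Complex H370

noncomputable section

/-- SUBA: `|f|^β` is at most its mean over a disc (bounded by the integral over the square) -/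
def P_SUBA : Prop := ∀ (f : ℂ → ℂ) (c : ℂ) (R β : ℝ), 0 < R → 0 < β →
  AnalyticOnNhd ℂ f (Metric.closedBall c (2 * R)) →
  ‖f c‖ ^ β ≤ 1 / (Real.pi * R ^ 2) * ∫ x in (-R)..R, ∫ y in (-R)..R, ‖f (c + x + y * I)‖ ^ β

/-- OUT: moments of zeta at distance `≍ 1 / log T` from the critical line, on both sides -/
def P_OUT : Prop := ∀ α : ℝ, 0 < α → α ≤ 2 → ∃ lam : ℝ, 1 ≤ lam ∧ ∀ K : ℝ, lam ≤ K → ∃ C : ℝ, 1 ≤ C ∧
  ∀ᶠ T : ℝ in atTop, ∀ x : ℝ, lam / Real.log T ≤ |x| → |x| ≤ K / Real.log T →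
    ∫ t in (T / 4)..(4 * T), ‖riemannZeta (((1 / 2 + x : ℝ) : ℂ) + t * I)‖ ^ (2 * α) ≤
      C * (T * Real.log T ^ (α ^ 2))

/-- STRIP: moments of zeta near the critical line -/
def P_STRIP : Prop := ∀ α K : ℝ, 0 < α → α ≤ 2 → 0 < K → ∃ C : ℝ, 1 ≤ C ∧
  ∀ᶠ T : ℝ in atTop, ∀ x : ℝ, |x| ≤ K / Real.log T →
    ∫ t in (T / 2)..(3 * T), ‖riemannZeta (((1 / 2 + x : ℝ) : ℂ) + t * I)‖ ^ (2 * α) ≤
      C * (T * Real.log T ^ (α ^ 2))

/-- NZM: intervals of length `6 / log T` rarely contain many zeros -/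
def P_NZM : Prop := ∀ e A' : ℝ, 0 < e → 0 < A' → ∀ᶠ T : ℝ in atTop, ∃ E : Set ℝ, MeasurableSet E ∧
  E ⊆ Set.Icc (T / 2) (3 * T) ∧ volume.real E ≤ T / Real.log T ^ A' ∧
  ∀ t ∈ Set.Icc (T / 2) (3 * T), t ∉ E →
    (NN riemannZeta (t - 3 / Real.log T) (t + 3 / Real.log T) : ℝ) ≤ Real.log T ^ e

open Classical in
/-- UPB: the moments of `ζ'(ρ)` over the zeros on the critical line from above -/
def P_UPB : Prop := ∀ k ε : ℝ, 0 < k → k < 2 → 0 < ε → ∀ᶠ T : ℝ in atTop,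
  ∑ s ∈ (Zf riemannZeta T (2 * T)).filter (fun s => s.re = 1 / 2), ‖deriv riemannZeta s‖ ^ (2 * k) ≤
    T * Real.log T ^ ((k + 1) ^ 2 + ε)

end

end Pool.Agent.Y745.UP
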