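import Pool.Agent.Y745.UP.Defs
import Pool.Agent.H370R2.DirGood

set_option autoImplicit false

/-! From the moments of `ζ'(ρ)` to the number of zeros with a large derivative. -/

namespace Pool.Agent.Y745.UP

open Filter Topology MeasureTheory Complex H370

noncomputable section

open Classical in
/-- the number of zeros on the critical line with a large derivative, from above -/
theorem upb_count (hUPB : P_UPB) {κ ε : ℝ} (hκ0 : 0 ≤ κ) (hκ2 : κ ≤ 2) (hε : 0 < ε) : ∀ᶠ T : ℝ in atTop,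
    (((Zf riemannZeta T (2 * T)).filter (fun s => s.re = 1 / 2 ∧
      Real.log s.im ^ (1 + κ) ≤ ‖deriv riemannZeta s‖)).card : ℝ) ≤ T * Real.log T ^ (1 - κ ^ 2 + ε) := by
  set r : ℝ := min (1 / 2) (ε / 2) with hr
  have hr0 : 0 < r := by positivity
  have hr1 : r ≤ 1 / 2 := min_le_left _ _
  have hr2 : r ≤ ε / 2 := min_le_right _ _
  set k : ℝ := κ + r * (1 - κ) with hk
  have hk0 : 0 < k := by
    have e : k = κ * (1 - r) + r := by rw [hk]; ring
    rw [e]
    have : 0 ≤ κ * (1 - r) := mul_nonneg hκ0 (by linarith)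
    linarith
  have hk2 : k < 2 := by
    have e : k = κ * (1 - r) + r := by rw [hk]; ring
    rw [e]
    have : κ * (1 - r) ≤ 2 * (1 - r) := mul_le_mul_of_nonneg_right hκ2 (by linarith)
    linarith
  have hkκ : (k - κ) ^ 2 ≤ ε / 2 := by
    have e : k - κ = r * (1 - κ) := by rw [hk]; ring
    rw [e, mul_pow]
    have h1 : (1 - κ) ^ 2 ≤ 1 := by nlinarith
    have h2 : r ^ 2 ≤ ε / 2 := by nlinarith
    calc r ^ 2 * (1 - κ) ^ 2 ≤ r ^ 2 * 1 := mul_le_mul_of_nonneg_left h1 (sq_nonneg r)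
      _ ≤ _ := by linarith
  filter_upwards [hUPB k (ε / 2) hk0 hk2 (by positivity), Real.tendsto_log_atTop.eventually_ge_atTop 1,
    eventually_ge_atTop 1] with T hT hL hT1
  set L := Real.log T with hLd
  have hL0 : 0 < L := by linarith
  set S := (Zf riemannZeta T (2 * T)).filter (fun s => s.re = 1 / 2 ∧
      Real.log s.im ^ (1 + κ) ≤ ‖deriv riemannZeta s‖) with hS
  have h1 : (S.card : ℝ) * (L ^ (1 + κ)) ^ (2 * k) ≤
      ∑ s ∈ (Zf riemannZeta T (2 * T)).filter (fun s => s.re = 1 / 2), ‖deriv riemannZeta s‖ ^ (2 * k) := by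
    have h2 : (S.card : ℝ) * (L ^ (1 + κ)) ^ (2 * k) ≤ ∑ s ∈ S, ‖deriv riemannZeta s‖ ^ (2 * k) := by
      rw [← nsmul_eq_mul]
      refine Finset.card_nsmul_le_sum _ _ _ fun s hs => ?_
      rw [hS, Finset.mem_filter] at hs
      have hs' := (mem_Zf good_zeta hT1).mp hs.1
      refine Real.rpow_le_rpow (by positivity) (le_trans ?_ hs.2.2) (by linarith)
      refine Real.rpow_le_rpow hL0.le ?_ (by linarith)
      exact Real.log_le_log (by linarith) hs'.2.2.1.le
    refine h2.trans (Finset.sum_le_sum_of_subset_of_nonneg ?_ fun s _ _ => by positivity)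
    intro s hs
    rw [hS, Finset.mem_filter] at hs
    rw [Finset.mem_filter]
    exact ⟨hs.1, hs.2.1⟩
  have h3 := h1.trans hT
  rw [← Real.rpow_mul hL0.le] at h3
  have hp : 0 < L ^ ((1 + κ) * (2 * k)) := Real.rpow_pos_of_pos hL0 _
  have h4 : (S.card : ℝ) ≤ T * L ^ ((k + 1) ^ 2 + ε / 2) / L ^ ((1 + κ) * (2 * k)) := by
    rw [le_div_iff₀ hp]
    exact h3
  refine h4.trans ?_
  rw [mul_div_assoc, ← Real.rpow_sub hL0]
  refine mul_le_mul_of_nonneg_left ?_ (by linarith)
  refine Real.rpow_le_rpow_of_exponent_le hL ?_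
  have e : (k + 1) ^ 2 + ε / 2 - (1 + κ) * (2 * k) = 1 - κ ^ 2 + (k - κ) ^ 2 + ε / 2 := by ring
  rw [e]
  linarith

end

end Pool.Agent.Y745.UP
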